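import Pool.Agent.Lib.MP_af3031_nt.Final

/-!
# A power gain for the sumsets of sets of squares of polylogarithmic size (MP_af3031_nt, Q1)

1. If for all `s < t` in `A + A` the primes `p ≤ |A|` dividing `t - s` satisfy `∑ log p ≤ L`, and
   `log |A| ≤ L`, then the additive energy of the set of squares `A` is at most
   `10^6 L |A| ^ (5/2)`.
2. For every set `A` of squares at most `N`, `|A| ^ (3/2) ≤ 2 * 10^6 * log N * |A + A|`.
3. For every `δ > 0` there is `c > 0` such that `|A + A| ≥ |A| ^ (1 + c)` for all sets `A` of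
   squares at most `N` with `|A| ≥ (log N) ^ (2 + δ)`.
4. The same for all sets `A` of squares, of any height, for which the sums in 1. are at most
   `|A| ^ (1/2 - δ)`.
-/

set_option autoImplicit false

namespace Pool.Agent.Results.MP_af3031_nt.PolylogGrowth

open scoped Pointwise

/-- Energy bound, growth of the sumset for squares up to `N`, power gain in the polylogarithmic
range, and power gain for sets whose sums have differences with few small prime factors. -/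
theorem result :
    (∀ A : Finset ℕ, (∀ a ∈ A, IsSquare a) → 2 ≤ A.card →
      ∀ L : ℝ, Real.log A.card ≤ L →
      (∀ s ∈ A + A, ∀ t ∈ A + A, s < t →
        ∑ p ∈ (t - s).primeFactors.filter (fun p => p ≤ A.card), Real.log p ≤ L) →
      (Finset.addEnergy A A : ℝ) ≤ 1000000 * L * (A.card : ℝ) ^ (5 / 2 : ℝ)) ∧
    (∀ N : ℕ, 2 ≤ N → ∀ A : Finset ℕ, (∀ a ∈ A, IsSquare a ∧ a ≤ N) → 2 ≤ A.card →
      (A.card : ℝ) ^ (3 / 2 : ℝ) ≤ 2000000 * Real.log N * ((A + A).card : ℝ)) ∧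
    (∀ δ : ℝ, 0 < δ → ∃ c : ℝ, 0 < c ∧ ∀ N : ℕ, 2 ≤ N → ∀ A : Finset ℕ,
      (∀ a ∈ A, IsSquare a ∧ a ≤ N) → 2 ≤ A.card → (Real.log N) ^ (2 + δ) ≤ A.card →
      (A.card : ℝ) ^ (1 + c) ≤ ((A + A).card : ℝ)) ∧
    (∀ δ : ℝ, 0 < δ → ∃ c : ℝ, 0 < c ∧ ∀ A : Finset ℕ, (∀ a ∈ A, IsSquare a) → 2 ≤ A.card →
      (∀ s ∈ A + A, ∀ t ∈ A + A, s < t →
        ∑ p ∈ (t - s).primeFactors.filter (fun p => p ≤ A.card), Real.log p ≤
          (A.card : ℝ) ^ (1 / 2 - δ)) →
      (A.card : ℝ) ^ (1 + c) ≤ ((A + A).card : ℝ)) := by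
  refine ⟨?_, Pool.Agent.MP_af3031_nt.bounded_squares, Pool.Agent.MP_af3031_nt.polylog,
    Pool.Agent.MP_af3031_nt.height_free⟩
  intro A hsq hA L hL hdiv
  have h0 : (0 : ℝ) < (A.card : ℝ) := by
    have : 0 < A.card := by omega
    exact_mod_cast this
  have h1 : (A.card : ℝ) ^ (5 / 2 : ℝ) = (A.card : ℝ) ^ 2 * √(A.card : ℝ) := by
    rw [Real.sqrt_eq_rpow, show (5 / 2 : ℝ) = ((2 : ℕ) : ℝ) + 1 / 2 by norm_num,
      Real.rpow_add h0, Real.rpow_natCast]
  rw [h1]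
  exact Pool.Agent.MP_af3031_nt.energy_bound A hsq hA L hL hdiv

end Pool.Agent.Results.MP_af3031_nt.PolylogGrowth
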